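import Pool.Agent.Helper45.DR.Main

set_option autoImplicit false

/-!
# DR2: sets of enabled places kill all copies
-/

namespace Pool.Agent.Helper45.DR2

open Pool.Agent.Helper45.DR

theorem core2 {W : Type*} (G : SimpleGraph W) (m h : ℕ)
    (π : Fin (2 ^ h) → Equiv.Perm (Fin m))
    (Q k : ℕ) (l : Fin k → ℕ) (L : ℕ) (F : (Fin k → ℕ) → ℤ) (s : ℕ)
    (hL : 0 < L) (hl : ∀ i, 0 < l i ∧ l i ∣ L)
    (hs : ∀ τ τ' : Fin k → ℕ, (∀ i, |(τ i : ℤ) - τ' i| ≤ 1) → |F τ - F τ'| ≤ s)
    (htype : ∀ (i : Fin k) (c : ℕ) (τ τ' : Fin k → ℕ), τ i = c * l i → τ' i = (c + 1) * l i →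
      (∀ j, |(τ j : ℤ) - τ' j| ≤ Q * l i) → (s : ℤ) + 1 ≤ |F τ - F τ'|)
    (t : ℕ) (ht : 0 < t) (hlen : h ≤ Q * (L * t)) (Y : Fin k → Set W)
    (hY : ∀ f : V m h → W, Function.Injective f →
      (∀ u v, (HG m h π).Adj u v → G.Adj (f u) (f v)) →
      ∃ i a, f (pth m h a 0) ∈ Y i ∧ td G (Y i) (L * t) (f (pth m h a h)) = L * t) :
    ∃ c : W → W → Bool, (∀ x y, c x y = c y x) ∧ ∀ b, ¬ ∃ f : V m h → W,
      Function.Injective f ∧ ∀ u v, (HG m h π).Adj u v → G.Adj (f u) (f v) ∧ c (f u) (f v) = b := by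
  classical
  set T := L * t with hT
  let τ : W → Fin k → ℕ := fun x i => td G (Y i) T x
  let χ : W → Bool := fun x => decide ((F (τ x) / (s + 1)) % 2 = 0)
  refine ⟨fun x y => decide (χ x = χ y), ?_, ?_⟩
  · intro x y
    simp only [eq_comm]
  · rintro b ⟨f, hf, hfc⟩
    cases b with
    | false =>
      obtain ⟨u, v, w, huv, huw, hvw⟩ := tri m h π
      have h1 := (hfc u v huv).2
      have h2 := (hfc u w huw).2
      have h3 := (hfc v w hvw).2
      rw [decide_eq_false_iff_not] at h1 h2 h3
      revert h1 h2 h3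
      generalize χ (f u) = p
      generalize χ (f v) = q
      generalize χ (f w) = r
      revert p q r
      decide
    | true =>
      have hadj : ∀ u v, (HG m h π).Adj u v → G.Adj (f u) (f v) := fun u v huv => (hfc u v huv).1
      have hχ : ∀ u v, (HG m h π).Adj u v → χ (f u) = χ (f v) := by
        intro u v huv
        have := (hfc u v huv).2
        rwa [decide_eq_true_iff] at this
      obtain ⟨i, a, hi0, hi⟩ := hY f hf hadj
      obtain ⟨p, hp, q, hq, hpq⟩ := cross_parity Q k l L F s hL hl hs htype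
        (fun j => τ (f (pth m h a j))) h t ht i
        (td_zero G (Y i) T _ hi0) hi
        (fun j hj i' => by
          have h1 := td_lip G (Y i') T _ _ (hadj _ _ (pth_adj m h π a j hj))
          rw [abs_sub_comm] at h1
          exact h1)
        hlen
      have hconst : ∀ j, j ≤ h → χ (f (pth m h a j)) = χ (f (pth m h a 0)) := by
        intro j
        induction j with
        | zero => intro _; rfl
        | succ j ih =>
          intro hj
          rw [← ih (by omega)]
          exact (hχ _ _ (pth_adj m h π a j (by omega))).symm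
      have h1 := (hconst p hp).trans (hconst q hq).symm
      simp only [χ, decide_eq_decide] at h1
      have e1 := Int.emod_two_eq (F (τ (f (pth m h a p))) / (s + 1))
      have e2 := Int.emod_two_eq (F (τ (f (pth m h a q))) / (s + 1))
      apply hpq
      rcases e1 with e1 | e1 <;> rcases e2 with e2 | e2
      · rw [e1, e2]
      · rw [e1, e2] at h1
        simp at h1
      · rw [e1, e2] at h1
        simp at h1
      · rw [e1, e2]

end Pool.Agent.Helper45.DR2
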