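import Mathlib

set_option autoImplicit false

/-!
# DR2-B: random labels have few coincidences

Proof (counting).  If the conclusion fails, the functions `a : I → Λ` are covered by the sets
`{a | ∀ t u, a (e (t, u)) ∈ S (y t)}` with `x ∈ R`, `e : Fin k × Fin w → I` injective and
`y : Fin k → P` with `y t ∈ Pl x`; there are at most `R.card * (card I) ^ (k * w) * B ^ k` of them.
Each is the `Fintype.piFinset` of `i ↦ S (y t)` if `i = e (t, u)`, and `univ` otherwise, so it has at
most `K ^ (k * w) * (card Λ) ^ (card I - k * w)` elements (injectivity of `e` also gives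
`k * w ≤ card I`).
-/

namespace Pool.Agent.Helper45.DR2

theorem exists_labels {I Λ P X : Type*} [Fintype I] [Fintype Λ] (S : P → Finset Λ) (K : ℕ)
    (hS : ∀ y, (S y).card ≤ K) (R : Finset X) (Pl : X → Finset P) (B : ℕ)
    (hPl : ∀ x, (Pl x).card ≤ B) (k w : ℕ)
    (hnum : R.card * ((Fintype.card I) ^ (k * w) * B ^ k * K ^ (k * w)) <
      (Fintype.card Λ) ^ (k * w)) (hne : Nonempty Λ) :
    ∃ a : I → Λ, ∀ x ∈ R, ¬ ∃ (e : Fin k × Fin w → I) (y : Fin k → P),
      Function.Injective e ∧ (∀ t, y t ∈ Pl x) ∧ ∀ t u, a (e (t, u)) ∈ S (y t) := by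
  classical
  by_contra hcon
  push Not at hcon
  have hL : 0 < Fintype.card Λ := Fintype.card_pos
  obtain ⟨x0, hx0, e0, y0, he0, -⟩ := hcon (fun _ => hne.some)
  have hMN : k * w ≤ Fintype.card I := by
    simpa using Fintype.card_le_of_injective e0 he0
  -- a single set
  have hone : ∀ (e : Fin k × Fin w → I) (y : Fin k → P), Function.Injective e →
      (Finset.univ.filter (fun a : I → Λ => ∀ t u, a (e (t, u)) ∈ S (y t))).card ≤
        K ^ (k * w) * (Fintype.card Λ) ^ (Fintype.card I - k * w) := by
    intro e y he
    set F : I → Finset Λ := fun i =>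
      if h : ∃ p, e p = i then S (y h.choose.1) else Finset.univ with hF
    have hsub : Finset.univ.filter (fun a : I → Λ => ∀ t u, a (e (t, u)) ∈ S (y t)) ⊆
        Fintype.piFinset F := by
      intro a ha
      rw [Finset.mem_filter] at ha
      rw [Fintype.mem_piFinset]
      intro i
      by_cases h : ∃ p, e p = i
      · simp only [hF, dif_pos h]
        have h1 := ha.2 h.choose.1 h.choose.2
        have h2 : e (h.choose.1, h.choose.2) = i := h.choose_spec
        rwa [h2] at h1
      · simp only [hF, dif_neg h]
        exact Finset.mem_univ _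
    refine (Finset.card_le_card hsub).trans ?_
    rw [Fintype.card_piFinset]
    have hstep : ∀ i : I, (F i).card ≤ if i ∈ Finset.univ.image e then K else Fintype.card Λ := by
      intro i
      by_cases h : ∃ p, e p = i
      · have hi : i ∈ Finset.univ.image e := by
          obtain ⟨p, hp⟩ := h
          exact Finset.mem_image.2 ⟨p, Finset.mem_univ _, hp⟩
        rw [if_pos hi]
        simp only [hF, dif_pos h]
        exact hS _
      · have hi : i ∉ Finset.univ.image e := by
          intro hi
          obtain ⟨p, -, hp⟩ := Finset.mem_image.1 hi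
          exact h ⟨p, hp⟩
        rw [if_neg hi]
        simp only [hF, dif_neg h]
        exact (Finset.card_univ).le
    refine (Finset.prod_le_prod' fun i _ => hstep i).trans ?_
    rw [Finset.prod_ite, Finset.prod_const, Finset.prod_const]
    have hc1 : (Finset.univ.filter (fun i => i ∈ Finset.univ.image e)).card = k * w := by
      rw [Finset.filter_univ_mem, Finset.card_image_of_injective _ he]
      simp
    have hc2 : (Finset.univ.filter (fun i => i ∉ Finset.univ.image e)).card =
        Fintype.card I - k * w := by
      have h3 := Finset.card_filter_add_card_filter_not (s := (Finset.univ : Finset I))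
        (fun i => i ∈ Finset.univ.image e)
      rw [hc1, Finset.card_univ] at h3
      omega
    rw [hc1, hc2]
  -- the cover
  have hcover : (Finset.univ : Finset (I → Λ)) ⊆ R.biUnion (fun x =>
      (Finset.univ.filter (fun e : Fin k × Fin w → I => Function.Injective e)).biUnion (fun e =>
        (Fintype.piFinset (fun _ : Fin k => Pl x)).biUnion (fun y =>
          Finset.univ.filter (fun a : I → Λ => ∀ t u, a (e (t, u)) ∈ S (y t))))) := by
    intro a _
    obtain ⟨x, hx, e, y, he, hy, ha⟩ := hcon a
    rw [Finset.mem_biUnion]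
    refine ⟨x, hx, ?_⟩
    rw [Finset.mem_biUnion]
    refine ⟨e, Finset.mem_filter.2 ⟨Finset.mem_univ _, he⟩, ?_⟩
    rw [Finset.mem_biUnion]
    exact ⟨y, Fintype.mem_piFinset.2 hy, Finset.mem_filter.2 ⟨Finset.mem_univ _, ha⟩⟩
  have hcount := Finset.card_le_card hcover
  set Q : ℕ := K ^ (k * w) * (Fintype.card Λ) ^ (Fintype.card I - k * w) with hQ
  have hbound : (R.biUnion (fun x =>
      (Finset.univ.filter (fun e : Fin k × Fin w → I => Function.Injective e)).biUnion (fun e =>
        (Fintype.piFinset (fun _ : Fin k => Pl x)).biUnion (fun y =>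
          Finset.univ.filter (fun a : I → Λ => ∀ t u, a (e (t, u)) ∈ S (y t)))))).card ≤
      R.card * ((Fintype.card I) ^ (k * w) * (B ^ k * Q)) := by
    refine Finset.card_biUnion_le_card_mul _ _ _ fun x _ => ?_
    refine (Finset.card_biUnion_le_card_mul _ _ (B ^ k * Q) fun e he => ?_).trans ?_
    · refine (Finset.card_biUnion_le_card_mul _ _ Q fun y _ => ?_).trans ?_
      · exact hone e y (Finset.mem_filter.1 he).2
      · refine Nat.mul_le_mul_right _ ?_
        rw [Fintype.card_piFinset]
        simp only [Finset.prod_const, Finset.card_univ, Fintype.card_fin]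
        exact Nat.pow_le_pow_left (hPl x) k
    · refine Nat.mul_le_mul_right _ ?_
      refine (Finset.card_le_univ _).trans ?_
      rw [Fintype.card_fun, Fintype.card_prod, Fintype.card_fin, Fintype.card_fin]
  have htot := hcount.trans hbound
  rw [Finset.card_univ, Fintype.card_fun] at htot
  have hpos : 0 < (Fintype.card Λ) ^ (Fintype.card I - k * w) := pow_pos hL _
  have hsplit : (Fintype.card Λ) ^ (Fintype.card I) =
      (Fintype.card Λ) ^ (k * w) * (Fintype.card Λ) ^ (Fintype.card I - k * w) := by
    rw [← pow_add, Nat.add_sub_cancel' hMN]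
  rw [hsplit, hQ] at htot
  have h4 : R.card * ((Fintype.card I) ^ (k * w) * (B ^ k *
      (K ^ (k * w) * (Fintype.card Λ) ^ (Fintype.card I - k * w)))) =
      (R.card * ((Fintype.card I) ^ (k * w) * B ^ k * K ^ (k * w))) *
        (Fintype.card Λ) ^ (Fintype.card I - k * w) := by ring
  rw [h4] at htot
  exact absurd (Nat.le_of_mul_le_mul_right htot hpos) (not_le.2 hnum)

end Pool.Agent.Helper45.DR2
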