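import Mathlib

set_option autoImplicit false

/-!
# DR2: numbers
-/

namespace Pool.Agent.Helper45.DR2

lemma bernoulli (x n : ℕ) : x ^ (n + 1) + (n + 1) * x ^ n ≤ (x + 1) ^ (n + 1) := by
  induction n with
  | zero => simp
  | succ n ih =>
    calc x ^ (n + 1 + 1) + (n + 1 + 1) * x ^ (n + 1)
        ≤ (x ^ (n + 1) + (n + 1) * x ^ n) * (x + 1) := by
          have : 0 ≤ (n + 1) * x ^ n := Nat.zero_le _
          have e : (x ^ (n + 1) + (n + 1) * x ^ n) * (x + 1) =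
            x ^ (n + 1 + 1) + (n + 1 + 1) * x ^ (n + 1) + (n + 1) * x ^ n := by ring
          omega
      _ ≤ (x + 1) ^ (n + 1) * (x + 1) := Nat.mul_le_mul_right _ ih
      _ = _ := by ring

lemma double (P : ℕ) (hP : 1 ≤ P) : (P - 1) ^ P * 2 ≤ P ^ P := by
  obtain ⟨x, rfl⟩ : ∃ x, P = x + 1 := ⟨P - 1, by omega⟩
  have h1 := bernoulli x x
  rw [Nat.add_sub_cancel]
  have h2 : x ^ (x + 1) ≤ (x + 1) * x ^ x := by
    rw [pow_succ, mul_comm]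
    exact Nat.mul_le_mul_right _ (Nat.le_succ x)
  omega

lemma quad (p : ℕ) (hp : 10 ≤ p) : 6 * p ^ 2 + 9 * p + 5 ≤ 2 ^ p := by
  induction p, hp using Nat.le_induction with
  | base => norm_num
  | succ p hp ih =>
    rw [pow_succ 2 p]
    nlinarith

/-- the tournament exists -/
lemma tour_num (Q h₀ : ℕ) (hQ : Q ≤ 2 ^ h₀) (hh : 20 ≤ h₀) :
    Q * (Q * 2 ^ h₀ + 1) ^ (h₀ / 2) * (2 ^ (h₀ / 2) - 1) ^ (2 ^ h₀ - h₀ / 2) <
      (2 ^ (h₀ / 2)) ^ (2 ^ h₀ - h₀ / 2) := by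
  set p := h₀ / 2 with hp
  have hp10 : 10 ≤ p := by omega
  have hp1 : 2 * p ≤ h₀ := by omega
  have hp2 : h₀ ≤ 2 * p + 1 := by omega
  set P := 2 ^ p with hPdef
  have hP2 : 2 ≤ P := by
    calc 2 = 2 ^ 1 := by norm_num
      _ ≤ 2 ^ p := Nat.pow_le_pow_right (by norm_num) (by omega)
  set E := 3 * h₀ * (p + 1) + 1 with hE
  have h1 : Q * (Q * 2 ^ h₀ + 1) ^ p < 2 ^ E := by
    have e1 : Q * 2 ^ h₀ + 1 ≤ 2 ^ (3 * h₀) := by
      have e2 : Q * 2 ^ h₀ ≤ 2 ^ h₀ * 2 ^ h₀ := Nat.mul_le_mul_right _ hQ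
      have e3 : 2 ^ (3 * h₀) = 2 ^ h₀ * 2 ^ h₀ * 2 ^ h₀ := by ring
      have e4 : 2 ≤ 2 ^ h₀ := by
        calc 2 = 2 ^ 1 := by norm_num
          _ ≤ 2 ^ h₀ := Nat.pow_le_pow_right (by norm_num) (by omega)
      have e5 : 1 ≤ 2 ^ h₀ * 2 ^ h₀ := Nat.one_le_iff_ne_zero.2 (by positivity)
      nlinarith
    calc Q * (Q * 2 ^ h₀ + 1) ^ p ≤ 2 ^ h₀ * (2 ^ (3 * h₀)) ^ p :=
          Nat.mul_le_mul hQ (Nat.pow_le_pow_left e1 _)
      _ = 2 ^ (h₀ + 3 * h₀ * p) := by rw [← pow_mul, ← pow_add]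
      _ < 2 ^ E := by
          apply Nat.pow_lt_pow_right (by norm_num)
          rw [hE]
          nlinarith
  have h2 : P * E ≤ 2 ^ h₀ - p := by
    have e1 : p ≤ P := Nat.lt_two_pow_self.le
    have e2 : E + 1 ≤ 2 ^ (h₀ - p) := by
      have e3 := quad p hp10
      have e4 : 2 ^ p ≤ 2 ^ (h₀ - p) := Nat.pow_le_pow_right (by norm_num) (by omega)
      have e5 : E + 1 ≤ 6 * p ^ 2 + 9 * p + 5 := by
        rw [hE]
        nlinarith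
      omega
    have e3 : 2 ^ h₀ = P * 2 ^ (h₀ - p) := by
      rw [hPdef, ← pow_add]
      congr 1
      omega
    have e4 : P * (E + 1) ≤ P * 2 ^ (h₀ - p) := Nat.mul_le_mul_left _ e2
    rw [Nat.mul_succ] at e4
    omega
  obtain ⟨s, hs⟩ := Nat.exists_eq_add_of_le h2
  rw [hs]
  have h3 : 0 < (P - 1) ^ (P * E + s) := pow_pos (by omega) _
  calc Q * (Q * 2 ^ h₀ + 1) ^ p * (P - 1) ^ (P * E + s)
      < 2 ^ E * (P - 1) ^ (P * E + s) := Nat.mul_lt_mul_of_pos_right h1 h3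
    _ = ((P - 1) ^ P * 2) ^ E * (P - 1) ^ s := by
        rw [pow_add, pow_mul, mul_pow]
        ring
    _ ≤ (P ^ P) ^ E * P ^ s :=
        Nat.mul_le_mul (Nat.pow_le_pow_left (double P (by omega)) _)
          (Nat.pow_le_pow_left (Nat.sub_le _ _) _)
    _ = P ^ (P * E + s) := by rw [← pow_mul, ← pow_add]

/-- the union bound -/
lemma union_num (D b g h₀ k T m N : ℕ) (hb : D + 1 ≤ 2 ^ b) (hh : 1 ≤ h₀) (hg : 1 ≤ g)
    (hQ : g * (8 * b) ≤ 2 ^ h₀)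
    (hT : b * (2 * T + 3 * m) ≤ 2 * h₀) (hk : h₀ + 1 ≤ 2 * (k * (4 * b)))
    (hN : N ≤ 2 ^ (g * h₀ ^ 2)) :
    N * ((g * ((8 * b - 2) * 2 ^ h₀)) ^ (g * k * (4 * b)) * ((D + 1) ^ (8 * h₀)) ^ (g * k) *
      ((D + 1) ^ (2 * T + 3 * m)) ^ (g * k * (4 * b))) < (2 ^ (8 * h₀)) ^ (g * k * (4 * b)) := by
  have h1 : g * ((8 * b - 2) * 2 ^ h₀) ≤ 2 ^ (2 * h₀) := by
    calc g * ((8 * b - 2) * 2 ^ h₀) ≤ g * ((8 * b) * 2 ^ h₀) :=
          Nat.mul_le_mul_left _ (Nat.mul_le_mul_right _ (Nat.sub_le _ _))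
      _ = g * (8 * b) * 2 ^ h₀ := by ring
      _ ≤ 2 ^ h₀ * 2 ^ h₀ := Nat.mul_le_mul_right _ hQ
      _ = 2 ^ (2 * h₀) := by ring
  have h2 : ((D + 1) ^ (8 * h₀)) ^ (g * k) ≤ 2 ^ (2 * h₀ * (g * k * (4 * b))) := by
    calc ((D + 1) ^ (8 * h₀)) ^ (g * k) ≤ ((2 ^ b) ^ (8 * h₀)) ^ (g * k) :=
          Nat.pow_le_pow_left (Nat.pow_le_pow_left hb _) _
      _ = 2 ^ (2 * h₀ * (g * k * (4 * b))) := by
          rw [← pow_mul, ← pow_mul]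
          congr 1
          ring
  have h3 : (D + 1) ^ (2 * T + 3 * m) ≤ 2 ^ (2 * h₀) := by
    calc (D + 1) ^ (2 * T + 3 * m) ≤ (2 ^ b) ^ (2 * T + 3 * m) := Nat.pow_le_pow_left hb _
      _ = 2 ^ (b * (2 * T + 3 * m)) := by rw [← pow_mul]
      _ ≤ 2 ^ (2 * h₀) := Nat.pow_le_pow_right (by norm_num) hT
  have h4 : g * (h₀ + 1) ≤ 2 * (g * k * (4 * b)) := by
    calc g * (h₀ + 1) ≤ g * (2 * (k * (4 * b))) := Nat.mul_le_mul_left _ hk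
      _ = 2 * (g * k * (4 * b)) := by ring
  generalize g * k * (4 * b) = K at *
  calc N * ((g * ((8 * b - 2) * 2 ^ h₀)) ^ K * ((D + 1) ^ (8 * h₀)) ^ (g * k) *
        ((D + 1) ^ (2 * T + 3 * m)) ^ K)
      ≤ 2 ^ (g * h₀ ^ 2) * ((2 ^ (2 * h₀)) ^ K * 2 ^ (2 * h₀ * K) * (2 ^ (2 * h₀)) ^ K) :=
        Nat.mul_le_mul hN (Nat.mul_le_mul (Nat.mul_le_mul (Nat.pow_le_pow_left h1 _) h2)
          (Nat.pow_le_pow_left h3 _))
    _ = 2 ^ (g * h₀ ^ 2 + 6 * h₀ * K) := by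
        rw [← pow_mul, ← pow_add, ← pow_add, ← pow_add]
        congr 1
        ring
    _ < 2 ^ (8 * h₀ * K) := by
        apply Nat.pow_lt_pow_right (by norm_num)
        have h5 : h₀ * (g * (h₀ + 1)) ≤ h₀ * (2 * K) := Nat.mul_le_mul_left _ h4
        have h6 : 1 ≤ g * h₀ := Nat.one_le_iff_ne_zero.2 (by positivity)
        nlinarith
    _ = (2 ^ (8 * h₀)) ^ K := by rw [← pow_mul]

end Pool.Agent.Helper45.DR2
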