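import Pool.Agent.Helper45.DR2.Select
import Pool.Agent.Helper45.DR2.Numer

set_option autoImplicit false

/-!
# DR2: the final statement
-/

namespace Pool.Agent.Helper45.DR2

open Pool.Agent.Helper45.DR

theorem hosts2 (D J g : ℕ) (hg : 1 ≤ g) : ∃ r₀, ∀ r ≥ r₀,
    ∀ π : Fin (2 ^ hgt r) → Equiv.Perm (Fin (tag r)), Function.Injective π →
    ∀ (W W' ι : Type) (G : SimpleGraph W) (G' : SimpleGraph W'),
    (∀ v, (G'.neighborSet v).Finite ∧ (G'.neighborSet v).ncard ≤ D) →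
    ∀ (col : W → Fin J) (part : W → ι) (τ : W → W') (ρ : ℕ), 2 * hgt r ≤ ρ →
    (∀ x y, col x = col y → G.edist x y ≤ ρ → part x = part y) →
    (∀ x, ∃ φ : W → W', φ x = τ x ∧ Set.InjOn φ {u | G.edist x u ≤ ρ} ∧
      ∀ u v, G.edist x u ≤ ρ → G.edist x v ≤ ρ → G.Adj u v → G'.Adj (φ u) (φ v)) →
    (∀ l P, (τ '' {x | col x = l ∧ part x = P}).Finite ∧
      (τ '' {x | col x = l ∧ part x = P}).ncard ≤ 2 ^ (g * (hgt r / 8) ^ 2)) →
    ∃ c : W → W → Bool, (∀ x y, c x y = c y x) ∧ ∀ b, ¬ ∃ f : V (tag r) (hgt r) → W,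
      Function.Injective f ∧
        ∀ u v, (HG (tag r) (hgt r) π).Adj u v → G.Adj (f u) (f v) ∧ c (f u) (f v) = b := by
  have hDb : D + 1 ≤ 2 ^ (D + 1) := Nat.lt_two_pow_self.le
  set b := D + 1 with hb
  have hbpos : 0 < b := by omega
  set C := 4 * b - 2 with hC
  have hC2 : C + 2 = 4 * b := by omega
  have hC3 : 2 * C + 2 = 8 * b - 2 := by omega
  obtain ⟨l, L, F, A, s, hL, hl, -, hs, htype⟩ := crook (32 * b)
    (Fintype.card (Fin J × Fin g × Fin (2 * C + 2)))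
  refine ⟨max (max (48 * b) (16 * b * L)) (8 + g * (8 * b)), ?_⟩
  intro r hr π hπ W W' ι G G' hD col part τ ρ hρ hsep hloc hR
  have hr1 : 48 * b ≤ r := ((le_max_left _ _).trans (le_max_left _ _)).trans hr
  have hr2 : 16 * b * L ≤ r := ((le_max_right _ _).trans (le_max_left _ _)).trans hr
  have hr4 : 8 + g * (8 * b) ≤ r := (le_max_right _ _).trans hr
  have hr3 : 8 ≤ r := by omega
  -- the height is a multiple of 8
  obtain ⟨h₀, hh₀⟩ : ∃ h₀, hgt r = 8 * h₀ := by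
    refine ⟨r * 2 ^ (r - 3), ?_⟩
    have e : 2 ^ r = 8 * 2 ^ (r - 3) := by
      rw [show (8 : ℕ) = 2 ^ 3 by norm_num, ← pow_add]
      congr 1
      omega
    unfold hgt
    rw [e]
    ring
  have h2r : 1 ≤ 2 ^ r := Nat.one_le_two_pow
  have hh : hgt r = r * 2 ^ r := rfl
  have hrh : r ≤ hgt r := by
    rw [hh]
    exact Nat.le_mul_of_pos_right _ (by omega)
  have h6b : 8 * 2 ^ r ≤ hgt r := by
    rw [hh]
    exact Nat.mul_le_mul_right _ hr3
  have hrr : r < 2 ^ r := Nat.lt_two_pow_self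
  have hrh0 : r ≤ h₀ := by
    have e1 : 8 * 2 ^ r ≤ 8 * h₀ := by rw [← hh₀]; exact h6b
    omega
  have h20 : 20 ≤ h₀ := by omega
  have hpos : 0 < 16 * b * L := by positivity
  have hh1 : 16 * b * L ≤ hgt r := hr2.trans hrh
  have ht : 0 < hgt r / (16 * b * L) := Nat.div_pos hh1 hpos
  set t := hgt r / (16 * b * L) with htdef
  have hA : t * (16 * b * L) ≤ hgt r := Nat.div_mul_le_self _ _
  have hB : hgt r < (t + 1) * (16 * b * L) := by
    rw [htdef]
    have := Nat.lt_div_mul_add (a := hgt r) hpos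
    rw [add_mul, one_mul]
    exact this
  have hA' : 16 * (b * (L * t)) ≤ hgt r := by
    have e : t * (16 * b * L) = 16 * (b * (L * t)) := by ring
    omega
  have h5 : 48 * b * 2 ^ r ≤ hgt r := by
    rw [hh]
    exact Nat.mul_le_mul_right _ hr1
  have h5' : 24 * (b * tag r) ≤ hgt r := by
    have e : 24 * (b * tag r) = 48 * b * 2 ^ r := by unfold tag; ring
    omega
  have hTb : L * t ≤ b * (L * t) := Nat.le_mul_of_pos_left _ hbpos
  have hmb : tag r ≤ b * tag r := Nat.le_mul_of_pos_left _ hbpos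
  have hlen : hgt r ≤ 32 * b * (L * t) := by
    have h3 : (t + 1) * (16 * b * L) ≤ (t + t) * (16 * b * L) :=
      Nat.mul_le_mul_right _ (by omega)
    have h4 : (t + t) * (16 * b * L) = 32 * b * (L * t) := by ring
    omega
  have hb2 : g * (8 * b) ≤ 2 ^ h₀ := by
    have e1 : h₀ < 2 ^ h₀ := Nat.lt_two_pow_self
    omega
  have hb3 : 8 * b ≤ g * (8 * b) := Nat.le_mul_of_pos_left _ hg
  obtain ⟨Y, hY⟩ := select G G' D hD (tag r) (hgt r) (by unfold tag; positivity) π hπ C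
    g (2 ^ h₀) (h₀ / 2) (h₀ / 2 / (4 * b) + 1) (L * t) (2 ^ (g * h₀ ^ 2)) (by positivity)
    (by
      rw [hC2, add_mul, one_mul]
      exact Nat.add_le_add_right (Nat.div_mul_le_self _ _) _)
    (by
      refine tour_num (2 * C + 2) h₀ ?_ h20
      omega)
    (by
      rw [hC2, hC3, hh₀]
      refine union_num D b g h₀ _ (L * t) (tag r) _ ?_ (by omega) hg hb2 ?_ ?_ le_rfl
      · exact Nat.lt_two_pow_self.le
      · have e : b * (2 * (L * t) + 3 * tag r) = 2 * (b * (L * t)) + 3 * (b * tag r) := by ring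
        omega
      · have e1 : h₀ / 2 < (h₀ / 2 / (4 * b) + 1) * (4 * b) := by
          have := Nat.lt_div_mul_add (a := h₀ / 2) (b := 4 * b) (by omega)
          rw [add_mul, one_mul]
          exact this
        omega)
    ρ (by omega) J col part
    (by
      rintro x y hxy ⟨q, hq⟩
      refine hsep x y hxy ((SimpleGraph.edist_le q).trans ?_)
      exact_mod_cast (by omega : q.length ≤ ρ))
    τ hloc
    (by
      intro l P
      obtain ⟨hfin, hcard⟩ := hR l P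
      refine ⟨hfin.toFinset, ?_, ?_⟩
      · rw [← Set.ncard_eq_toFinset_card _ hfin]
        refine hcard.trans ?_
        rw [hh₀, Nat.mul_div_cancel_left _ (by norm_num)]
      · intro x hx hP
        rw [Set.Finite.mem_toFinset]
        exact ⟨x, ⟨hx, hP⟩, rfl⟩)
  refine core2 G (tag r) (hgt r) π (32 * b) _ l L F s hL hl hs htype t ht hlen
    (fun i => Y ((Fintype.equivFin _).symm i)) ?_
  intro f hf hadj
  obtain ⟨i, a, h1, h2⟩ := hY f hf hadj
  refine ⟨Fintype.equivFin _ i, a, ?_, ?_⟩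
  · rw [Equiv.symm_apply_apply]
    exact h1
  · rw [Equiv.symm_apply_apply]
    exact h2

theorem final2 : ∃ H : (n : ℕ) → SimpleGraph (Fin n),
    (∀ n v, ((H n).neighborSet v).ncard ≤ 3) ∧
    ∀ D J C : ℕ, ∃ n₀, ∀ n ≥ n₀,
    ∀ (W W' ι : Type) (G : SimpleGraph W) (G' : SimpleGraph W'),
    (∀ v, (G'.neighborSet v).Finite ∧ (G'.neighborSet v).ncard ≤ D) →
    ∀ (τ : W → W') (col : W → Fin J) (part : W → ι),
    (∀ x, ∃ φ : W → W', φ x = τ x ∧
      Set.InjOn φ {u | G.edist x u ≤ (2 * Nat.log 2 n : ℕ)} ∧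
      ∀ u v, G.edist x u ≤ (2 * Nat.log 2 n : ℕ) → G.edist x v ≤ (2 * Nat.log 2 n : ℕ) →
        G.Adj u v → G'.Adj (φ u) (φ v)) →
    (∀ x y, col x = col y → G.edist x y ≤ (2 * Nat.log 2 n : ℕ) → part x = part y) →
    (∀ l P, (τ '' {x | col x = l ∧ part x = P}).Finite ∧
      (τ '' {x | col x = l ∧ part x = P}).ncard ≤ n ^ (C * Nat.log 2 n)) →
    ∃ c : W → W → Bool, (∀ x y, c x y = c y x) ∧ ∀ b, ¬ ∃ f : Fin n → W,
      Function.Injective f ∧ ∀ u v, (H n).Adj u v → G.Adj (f u) (f v) ∧ c (f u) (f v) = b := by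
  choose H hH1 hH2 using exists_H
  refine ⟨H, hH1, ?_⟩
  intro D J C
  obtain ⟨r₀, hr₀⟩ := hosts2 D J (4096 * C + 1) (by omega)
  refine ⟨Fintype.card (V (tag (max r₀ 3)) (hgt (max r₀ 3))), ?_⟩
  intro n hn W W' ι G G' hD τ col part hloc hsep hR
  obtain ⟨h1, h2, h3⟩ := idx_spec _ _ hn
  obtain ⟨π, hπ, g, hg, hgadj⟩ := hH2 n h2
  have h4 : r₀ ≤ idx n := (le_max_left _ _).trans h1
  have h5 : 3 ≤ idx n := (le_max_right _ _).trans h1
  have h6 : n ≤ 2 ^ (8 * hgt (idx n)) := h3.le.trans (card_V_upper _ (by omega))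
  have h7 : hgt (idx n) ≤ Nat.log 2 n :=
    Nat.le_log_of_pow_le (by norm_num) ((card_V_lower _).trans h2)
  have h8 : Nat.log 2 n ≤ 8 * hgt (idx n) := by
    have h9 : Nat.log 2 n ≤ Nat.log 2 (2 ^ (8 * hgt (idx n))) := Nat.log_mono_right h6
    rwa [Nat.log_pow (by norm_num)] at h9
  obtain ⟨h₀, hh₀⟩ : ∃ h₀, hgt (idx n) = 8 * h₀ := by
    refine ⟨idx n * 2 ^ (idx n - 3), ?_⟩
    have e : 2 ^ idx n = 8 * 2 ^ (idx n - 3) := by
      rw [show (8 : ℕ) = 2 ^ 3 by norm_num, ← pow_add]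
      congr 1
      omega
    unfold hgt
    rw [e]
    ring
  have h10 : n ^ (C * Nat.log 2 n) ≤ 2 ^ ((4096 * C + 1) * (hgt (idx n) / 8) ^ 2) := by
    rw [hh₀, Nat.mul_div_cancel_left _ (by norm_num)]
    rw [hh₀] at h6 h8
    calc n ^ (C * Nat.log 2 n) ≤ (2 ^ (8 * (8 * h₀))) ^ (C * Nat.log 2 n) :=
          Nat.pow_le_pow_left h6 _
      _ = 2 ^ (64 * C * h₀ * Nat.log 2 n) := by
          rw [← pow_mul]
          congr 1
          ring
      _ ≤ 2 ^ (64 * C * h₀ * (8 * (8 * h₀))) :=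
          Nat.pow_le_pow_right (by norm_num) (Nat.mul_le_mul_left _ h8)
      _ ≤ 2 ^ ((4096 * C + 1) * h₀ ^ 2) := by
          apply Nat.pow_le_pow_right (by norm_num)
          nlinarith
  obtain ⟨c, hc, hcc⟩ := hr₀ (idx n) h4 π hπ W W' ι G G' hD col part τ (2 * Nat.log 2 n)
    (by omega) hsep hloc (fun l P => ⟨(hR l P).1, (hR l P).2.trans h10⟩)
  refine ⟨c, hc, ?_⟩
  rintro b ⟨f, hf, hfc⟩
  exact hcc b ⟨f ∘ g, hf.comp hg, fun u v huv => hfc _ _ (hgadj u v huv)⟩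

end Pool.Agent.Helper45.DR2
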