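import Mathlib

set_option autoImplicit false

/-!
# DR2-C: the greedy argument and the capacity of the tournament rule

`greedy`: induction on `k`.  Given `e, y` for `k`, let `U` be the image of `e` (at most
`k * (C + 2) ≤ p` elements); take `i ∈ cls`, `i ∉ U`, which beats all of `U`.  The `C + 1` members of
`L (z i)` which beat `i` are not in `U` (antisymmetry) and different from `i`; together with `i` they
give the next `C + 2` indices, with `y = z i`.

`capacity`: each `i ∈ B` is beaten by at most `C` members of `B`, and the number of pairs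
`(i, j)`, `j` beats `i`, in `B` is `B.card * (B.card - 1) / 2`.
-/

namespace Pool.Agent.Helper45.DR2

open Classical in
theorem greedy {I P : Type*} [Fintype I] (b : I → I → Prop)
    (hb : ∀ i j, i ≠ j → (b i j ↔ ¬ b j i)) (cls : Finset I) (p : ℕ)
    (hS : ∀ U : Finset I, U.card ≤ p → ∃ i ∈ cls, i ∉ U ∧ ∀ u ∈ U, b i u) (C : ℕ)
    (L : P → Finset I) (z : I → P)
    (hz : ∀ i ∈ cls, i ∈ L (z i) ∧ C + 1 ≤ ((L (z i)).filter fun j => j ≠ i ∧ b j i).card)
    (k : ℕ) (hk : k * (C + 2) ≤ p + (C + 2)) :
    ∃ (e : Fin k × Fin (C + 2) → I) (y : Fin k → P), Function.Injective e ∧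
      (∀ t, ∃ i ∈ cls, y t = z i) ∧ ∀ t u, e (t, u) ∈ L (y t) := by
  induction k with
  | zero =>
    refine ⟨fun x => x.1.elim0, fun t => t.elim0, fun x => x.1.elim0, fun t => t.elim0,
      fun t => t.elim0⟩
  | succ k ih =>
    have hk1 : k * (C + 2) ≤ p := by
      have h : (k + 1) * (C + 2) = k * (C + 2) + (C + 2) := by ring
      omega
    obtain ⟨e, y, he, hy, hL⟩ := ih (by omega)
    have hU : (Finset.univ.image e).card ≤ p := by
      refine Finset.card_image_le.trans ?_
      rw [Finset.card_univ, Fintype.card_prod, Fintype.card_fin, Fintype.card_fin]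
      exact hk1
    obtain ⟨i, hi, hiU, hbU⟩ := hS _ hU
    obtain ⟨hiL, hcard⟩ := hz i hi
    obtain ⟨T, hTF, hTc⟩ := Finset.exists_subset_card_eq hcard
    have hT : ∀ j ∈ T, j ∈ L (z i) ∧ j ≠ i ∧ b j i := by
      intro j hj
      have h := Finset.mem_filter.1 (hTF hj)
      exact ⟨h.1, h.2.1, h.2.2⟩
    have hiT : i ∉ T := fun h => (hT i h).2.1 rfl
    have hT2 : (insert i T).card = C + 2 := by
      rw [Finset.card_insert_of_notMem hiT, hTc]
    have hTL : ∀ j ∈ insert i T, j ∈ L (z i) := by
      intro j hj
      rcases Finset.mem_insert.1 hj with rfl | hj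
      · exact hiL
      · exact (hT j hj).1
    have hTU : ∀ j ∈ insert i T, j ∉ Finset.univ.image e := by
      intro j hj hjU
      rcases Finset.mem_insert.1 hj with rfl | hj
      · exact hiU hjU
      · obtain ⟨_, h1, h2⟩ := hT j hj
        exact (hb j i h1).1 h2 (hbU j hjU)
    let f : Fin (C + 2) ≃ ↥(insert i T) := ((insert i T).equivFinOfCardEq hT2).symm
    have hf : ∀ u, ((f u : ↥(insert i T)) : I) ∈ insert i T := fun u => (f u).2
    refine ⟨fun x => Fin.cases (motive := fun _ => I) ((f x.2 : ↥(insert i T)) : I)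
      (fun t => e (t, x.2)) x.1, Fin.cons (z i) y, ?_, ?_, ?_⟩
    · rintro ⟨t, u⟩ ⟨t', u'⟩ h
      refine Fin.cases (motive := fun t => (Fin.cases (motive := fun _ => I)
        ((f u : ↥(insert i T)) : I) (fun t => e (t, u)) t =
          Fin.cases (motive := fun _ => I) ((f u' : ↥(insert i T)) : I) (fun t => e (t, u')) t') →
        (t, u) = (t', u')) ?_ (fun t => ?_) t h
      · refine Fin.cases (motive := fun t' => (((f u : ↥(insert i T)) : I) =
          Fin.cases (motive := fun _ => I) ((f u' : ↥(insert i T)) : I) (fun t => e (t, u')) t') →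
          ((0 : Fin (k + 1)), u) = (t', u')) ?_ (fun t' => ?_) t'
        · intro h
          rw [f.injective (Subtype.ext h)]
        · intro h
          exfalso
          refine hTU _ (hf u) ?_
          rw [h]
          exact Finset.mem_image_of_mem _ (Finset.mem_univ _)
      · refine Fin.cases (motive := fun t' => (e (t, u) =
          Fin.cases (motive := fun _ => I) ((f u' : ↥(insert i T)) : I) (fun t => e (t, u')) t') →
          (t.succ, u) = (t', u')) ?_ (fun t' => ?_) t'
        · intro h
          exfalso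
          refine hTU _ (hf u') ?_
          have h' : e (t, u) = ((f u' : ↥(insert i T)) : I) := h
          rw [← h']
          exact Finset.mem_image_of_mem _ (Finset.mem_univ _)
        · intro h
          have h' : (t, u) = (t', u') := he h
          rw [Prod.mk.injEq] at h'
          rw [h'.1, h'.2]
    · intro t
      refine Fin.cases ?_ (fun t => ?_) t
      · exact ⟨i, hi, rfl⟩
      · exact hy t
    · intro t u
      refine Fin.cases ?_ (fun t => ?_) t
      · exact hTL _ (hf u)
      · exact hL t u

open Classical in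
theorem capacity {I : Type*} (b : I → I → Prop) (hb : ∀ i j, i ≠ j → (b i j ↔ ¬ b j i)) (C : ℕ)
    (B : Finset I) (hB : ∀ i ∈ B, (B.filter fun j => j ≠ i ∧ b j i).card ≤ C) :
    B.card ≤ 2 * C + 1 := by
  have h1 : ∀ i ∈ B, (B.filter fun j => j ≠ i ∧ b j i).card +
      (B.filter fun j => j ≠ i ∧ b i j).card = B.card - 1 := by
    intro i hi
    rw [← Finset.card_erase_of_mem hi, ← Finset.card_union_of_disjoint]
    · congr 1
      ext j
      simp only [Finset.mem_union, Finset.mem_filter, Finset.mem_erase]
      constructor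
      · rintro (⟨h, h2, _⟩ | ⟨h, h2, _⟩) <;> exact ⟨h2, h⟩
      · rintro ⟨h2, h⟩
        by_cases h3 : b j i
        · exact Or.inl ⟨h, h2, h3⟩
        · refine Or.inr ⟨h, h2, ?_⟩
          by_contra h4
          exact h3 ((hb j i h2).2 h4)
    · rw [Finset.disjoint_left]
      intro j hj hj'
      rw [Finset.mem_filter] at hj hj'
      exact (hb j i hj.2.1).1 hj.2.2 hj'.2.2
  have h2 : ∑ i ∈ B, (B.filter fun j => j ≠ i ∧ b j i).card =
      ∑ i ∈ B, (B.filter fun j => j ≠ i ∧ b i j).card := by
    simp_rw [Finset.card_filter]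
    rw [Finset.sum_comm]
    refine Finset.sum_congr rfl fun i _ => Finset.sum_congr rfl fun j _ => ?_
    simp only [ne_comm]
  have h3 := Finset.sum_congr rfl h1
  rw [Finset.sum_add_distrib, ← h2, Finset.sum_const, smul_eq_mul] at h3
  have h4 : ∑ i ∈ B, (B.filter fun j => j ≠ i ∧ b j i).card ≤ B.card * C := by
    have h := Finset.sum_le_sum hB
    rwa [Finset.sum_const, smul_eq_mul] at h
  by_contra hcon
  push Not at hcon
  have h5 : B.card * (2 * C + 1) ≤ B.card * (B.card - 1) := Nat.mul_le_mul_left _ (by omega)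
  have h6 : B.card * (2 * C + 1) = B.card * C + B.card * C + B.card := by ring
  omega

end Pool.Agent.Helper45.DR2
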