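import Pool.Agent.Helper45.DR2.Final

set_option autoImplicit false

/-!
Bounded degree Ramsey hosts must have more than quasi-polynomially many local types inside some
cluster of every partition into well separated clusters (MP_74ecc6_co).
-/

namespace Pool.Agent.Helper45.DR2.OldQuasi

/-- One sequence of graphs `H n` of maximum degree at most 3 with the following property for all
`D`, `J`, `C` and all large `n`.  Let every ball of radius `2 log₂ n` of a graph `G` embed in a graph
`G'` of maximum degree at most `D`, its centre `x` going to `τ x`.  Let the vertices of `G` be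
coloured with `J` colours (`col`) and let each colour class be divided into parts (`part`) which
have distances more than `2 log₂ n` from each other and on which `τ` takes at most
`n ^ (C * log₂ n)` values.  Then `G` is not Ramsey with respect to `H n`. -/
theorem result : ∃ H : (n : ℕ) → SimpleGraph (Fin n),
    (∀ n v, ((H n).neighborSet v).ncard ≤ 3) ∧
    ∀ D J C : ℕ, ∃ n₀, ∀ n ≥ n₀,
    ∀ (W W' ι : Type) (G : SimpleGraph W) (G' : SimpleGraph W'),
    (∀ v, (G'.neighborSet v).Finite ∧ (G'.neighborSet v).ncard ≤ D) →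
    ∀ (τ : W → W') (col : W → Fin J) (part : W → ι),
    (∀ x, ∃ φ : W → W', φ x = τ x ∧
      Set.InjOn φ {u | G.edist x u ≤ (2 * Nat.log 2 n : ℕ)} ∧
      ∀ u v, G.edist x u ≤ (2 * Nat.log 2 n : ℕ) → G.edist x v ≤ (2 * Nat.log 2 n : ℕ) →
        G.Adj u v → G'.Adj (φ u) (φ v)) →
    (∀ x y, col x = col y → G.edist x y ≤ (2 * Nat.log 2 n : ℕ) → part x = part y) →
    (∀ l P, (τ '' {x | col x = l ∧ part x = P}).Finite ∧
      (τ '' {x | col x = l ∧ part x = P}).ncard ≤ n ^ (C * Nat.log 2 n)) →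
    ∃ c : W → W → Bool, (∀ x y, c x y = c y x) ∧ ∀ b, ¬ ∃ f : Fin n → W,
      Function.Injective f ∧ ∀ u v, (H n).Adj u v → G.Adj (f u) (f v) ∧ c (f u) (f v) = b :=
  Pool.Agent.Helper45.DR2.final2

/-- One cluster: no host of maximum degree at most `D` with at most `n ^ (C * log₂ n)`
vertices, or orbits of automorphisms, is Ramsey with respect to `H n`. -/
theorem orbits : ∃ H : (n : ℕ) → SimpleGraph (Fin n),
    (∀ n v, ((H n).neighborSet v).ncard ≤ 3) ∧
    ∀ D C : ℕ, ∃ n₀, ∀ n ≥ n₀, ∀ (m : ℕ) (G : SimpleGraph (Fin m)),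
    (∀ v, (G.neighborSet v).ncard ≤ D) →
    (∃ R : Finset (Fin m), R.card ≤ n ^ (C * Nat.log 2 n) ∧ ∀ x, ∃ e : G ≃g G, e x ∈ R) →
    ∃ c : Fin m → Fin m → Bool, (∀ x y, c x y = c y x) ∧ ∀ b, ¬ ∃ f : Fin n → Fin m,
      Function.Injective f ∧ ∀ u v, (H n).Adj u v → G.Adj (f u) (f v) ∧ c (f u) (f v) = b := by
  obtain ⟨H, hH, hH2⟩ := result
  refine ⟨H, hH, fun D C => ?_⟩
  obtain ⟨n₀, hn₀⟩ := hH2 D 1 C
  refine ⟨n₀, fun n hn m G hD => ?_⟩
  rintro ⟨R, hR, he⟩
  choose e he using he
  refine hn₀ n hn (Fin m) (Fin m) Unit G G (fun v => ⟨Set.toFinite _, hD v⟩) (fun x => e x x)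
    (fun _ => 0) (fun _ => ()) ?_ (fun _ _ _ _ => rfl) ?_
  · intro x
    exact ⟨e x, rfl, (e x).injective.injOn, fun u v _ _ huv => (e x).map_rel_iff.2 huv⟩
  · intro l P
    refine ⟨Set.toFinite _, ?_⟩
    have h1 : ((fun x => e x x) '' {x | (0 : Fin 1) = l ∧ () = P}) ⊆ (R : Set (Fin m)) := by
      rintro _ ⟨x, -, rfl⟩
      exact he x
    refine (Set.ncard_le_ncard h1 (Finset.finite_toSet R)).trans ?_
    rw [Set.ncard_coe_finset]
    exact hR

/-- Bounded Assouad-Nagata dimension: no host of maximum degree at most `D`, of any size, whose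
vertices can be coloured with `J` colours so that each colour class is divided into parts of
diameter at most `K * log₂ n` with distances more than `2 log₂ n` from each other, is Ramsey with
respect to `H n`. -/
theorem assouadNagata : ∃ H : (n : ℕ) → SimpleGraph (Fin n),
    (∀ n v, ((H n).neighborSet v).ncard ≤ 3) ∧
    ∀ D J K : ℕ, ∃ n₀, ∀ n ≥ n₀, ∀ (W ι : Type) (G : SimpleGraph W),
    (∀ v, (G.neighborSet v).Finite ∧ (G.neighborSet v).ncard ≤ D) →
    ∀ (col : W → Fin J) (part : W → ι),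
    (∀ x y, col x = col y → G.edist x y ≤ (2 * Nat.log 2 n : ℕ) → part x = part y) →
    (∀ x y, col x = col y → part x = part y → G.edist x y ≤ (K * Nat.log 2 n : ℕ)) →
    ∃ c : W → W → Bool, (∀ x y, c x y = c y x) ∧ ∀ b, ¬ ∃ f : Fin n → W,
      Function.Injective f ∧ ∀ u v, (H n).Adj u v → G.Adj (f u) (f v) ∧ c (f u) (f v) = b := by
  obtain ⟨H, hH, hH2⟩ := result
  refine ⟨H, hH, fun D J K => ?_⟩
  obtain ⟨n₀, hn₀⟩ := hH2 D J 1
  refine ⟨max n₀ (2 ^ ((D + 1) * K)), fun n hn W ι G hD col part hsep hdiam => ?_⟩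
  have hn1 : 2 ^ ((D + 1) * K) ≤ n := (le_max_right _ _).trans hn
  refine hn₀ n ((le_max_left _ _).trans hn) W W ι G G hD id col part ?_ hsep ?_
  · intro x
    exact ⟨id, rfl, Function.injective_id.injOn, fun u v _ _ huv => huv⟩
  · intro l P
    rw [Set.image_id]
    have hn2 : 0 < n := lt_of_lt_of_le (by positivity) hn1
    rcases Set.eq_empty_or_nonempty {x | col x = l ∧ part x = P} with h | ⟨x, hx⟩
    · rw [h]
      refine ⟨Set.finite_empty, ?_⟩
      rw [Set.ncard_empty]
      exact Nat.zero_le _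
    · obtain ⟨B, hB, hB2⟩ := Pool.Agent.Helper45.DR2.exists_places G D hD (K * Nat.log 2 n) x
      have hsub : {x | col x = l ∧ part x = P} ⊆ (B : Set W) := by
        intro y hy
        have h1 := hdiam x y (hx.1.trans hy.1.symm) (hx.2.trans hy.2.symm)
        have h2 : G.edist x y ≠ ⊤ := ne_top_of_le_ne_top (ENat.coe_ne_top _) h1
        obtain ⟨p, hp⟩ := SimpleGraph.exists_walk_of_edist_ne_top h2
        refine hB2 y ⟨p, ?_⟩
        rw [← hp] at h1
        exact_mod_cast h1
      refine ⟨(Finset.finite_toSet B).subset hsub, ?_⟩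
      refine (Set.ncard_le_ncard hsub (Finset.finite_toSet B)).trans ?_
      rw [Set.ncard_coe_finset]
      refine hB.trans ?_
      have h3 : D + 1 ≤ 2 ^ (D + 1) := Nat.lt_two_pow_self.le
      have h4 : (D + 1) * K ≤ 1 * Nat.log 2 n := by
        rw [one_mul]
        exact Nat.le_log_of_pow_le (by norm_num) hn1
      calc (D + 1) ^ (K * Nat.log 2 n) ≤ (2 ^ (D + 1)) ^ (K * Nat.log 2 n) :=
            Nat.pow_le_pow_left h3 _
        _ = (2 ^ Nat.log 2 n) ^ ((D + 1) * K) := by
            rw [← pow_mul, ← pow_mul]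
            congr 1
            ring
        _ ≤ n ^ ((D + 1) * K) := Nat.pow_le_pow_left (Nat.pow_log_le_self 2 hn2.ne') _
        _ ≤ n ^ (1 * Nat.log 2 n) := Nat.pow_le_pow_right hn2 h4

end Pool.Agent.Helper45.DR2.OldQuasi
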