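import Mathlib

set_option autoImplicit false

/-!
# DR2-A: tournaments in which every small set is beaten by a member of each class

Proof (counting).  Let `I = Fin Q × Fin m`.  For `r : I → I → Bool` say that `i` beats `j` when
`r i j = xor (r j i) (decide (i < j))` for a strict linear order `<` on `I`.  Then exactly one of
`i`, `j` beats the other for `i ≠ j`.  Fix `U` (at most `p` elements) and `q`, and let `S` be the
set of the `(q, i)` outside `U`.  The number of `r` in which no element of `S` beats all of `U` is
`(#rows) ^ (Q m) * (1 - 2 ^ (-#U)) ^ #S`, by double counting of the pairs `(c, r)` where `c` and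
`r` agree outside the rows in `S` and `r` is bad.  Sum over the at most `(Q m + 1) ^ p` sets `U`
and over `q`.
-/

namespace Pool.Agent.Helper45.DR2

open Finset

section counting

variable {I : Type} [Fintype I] [DecidableEq I]

theorem prod_ite_mem_one (S : Finset I) (B : ℝ) :
    (∏ x : I, (if x ∈ S then B else 1)) = B ^ S.card := by
  rw [Finset.prod_ite]
  simp

theorem card_rows (U : Finset I) (d : I → Bool) :
    ((univ.filter (fun row : I → Bool => ∀ u ∈ U, row u = d u)).card : ℝ)
      = 2 ^ Fintype.card I * (1 / 2) ^ U.card := by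
  have h : (univ.filter (fun row : I → Bool => ∀ u ∈ U, row u = d u))
      = Fintype.piFinset (fun u => if u ∈ U then {d u} else univ) := by
    ext row
    simp only [mem_filter, mem_univ, true_and, Fintype.mem_piFinset]
    constructor
    · intro h u
      split_ifs with hu
      · simp [h u hu]
      · simp
    · intro h u hu
      have := h u
      simpa [hu] using this
  rw [h, Fintype.card_piFinset]
  have h2 : ∀ u, (((if u ∈ U then ({d u} : Finset Bool) else univ).card : ℕ) : ℝ)
      = 2 * (if u ∈ U then (1 / 2 : ℝ) else 1) := by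
    intro u
    split_ifs <;> simp
  rw [Nat.cast_prod]
  simp only [h2]
  rw [Finset.prod_mul_distrib, prod_ite_mem_one]
  simp

theorem card_bad_rows (U : Finset I) (d : I → Bool) :
    ((univ.filter (fun row : I → Bool => ∃ u ∈ U, row u ≠ d u)).card : ℝ)
      = 2 ^ Fintype.card I * (1 - (1 / 2) ^ U.card) := by
  have h := Finset.card_filter_add_card_filter_not (s := (univ : Finset (I → Bool)))
    (fun row : I → Bool => ∀ u ∈ U, row u = d u)
  have h1 : (univ.filter (fun row : I → Bool => ¬ ∀ u ∈ U, row u = d u))
      = (univ.filter (fun row : I → Bool => ∃ u ∈ U, row u ≠ d u)) := by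
    ext row
    simp
  rw [h1] at h
  have h2 : ((univ : Finset (I → Bool)).card : ℝ) = 2 ^ Fintype.card I := by
    simp
  have h3 := congrArg (fun n : ℕ => (n : ℝ)) h
  simp only [Nat.cast_add] at h3
  rw [h2, card_rows] at h3
  linarith

/-- The number of the arrays `r` in which no element of `S` beats all of `U`. -/
theorem card_bad (U S : Finset I) (hUS : ∀ u ∈ U, u ∉ S) (d : I → I → Bool) :
    ((univ.filter (fun r : I → I → Bool =>
        ∀ x ∈ S, ∃ u ∈ U, r x u ≠ xor (r u x) (d x u))).card : ℝ)
      = (2 ^ Fintype.card I) ^ Fintype.card I * (1 - (1 / 2) ^ U.card) ^ S.card := by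
  classical
  set t : (I → I → Bool) → I → Finset (I → Bool) := fun c x =>
    if x ∈ S then univ.filter (fun row : I → Bool => ∃ u ∈ U, row u ≠ xor (c u x) (d x u))
    else {c x} with ht
  have hA : (∑ c : I → I → Bool, ((Fintype.piFinset (t c)).card : ℝ))
      = (2 ^ Fintype.card I) ^ Fintype.card I
        * (2 ^ Fintype.card I * (1 - (1 / 2) ^ U.card)) ^ S.card := by
    have h1 : ∀ c : I → I → Bool, ((Fintype.piFinset (t c)).card : ℝ)
        = (2 ^ Fintype.card I * (1 - (1 / 2) ^ U.card)) ^ S.card := by
      intro c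
      rw [Fintype.card_piFinset, Nat.cast_prod, ← prod_ite_mem_one]
      refine Finset.prod_congr rfl fun x _ => ?_
      simp only [ht]
      split_ifs with hx
      · exact card_bad_rows U _
      · simp
    rw [Finset.sum_congr rfl (fun c _ => h1 c), Finset.sum_const, nsmul_eq_mul]
    simp
  have hB : (∑ c : I → I → Bool, ((Fintype.piFinset (t c)).card : ℝ))
      = ((univ.filter (fun r : I → I → Bool =>
        ∀ x ∈ S, ∃ u ∈ U, r x u ≠ xor (r u x) (d x u))).card : ℝ)
        * (2 ^ Fintype.card I) ^ S.card := by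
    have h1 : ∀ c : I → I → Bool, ((Fintype.piFinset (t c)).card : ℝ)
        = ∑ r : I → I → Bool, if r ∈ Fintype.piFinset (t c) then (1 : ℝ) else 0 := by
      intro c
      rw [Finset.sum_ite_mem, Finset.univ_inter, Finset.sum_const, nsmul_eq_mul, mul_one]
    rw [Finset.sum_congr rfl (fun c _ => h1 c), Finset.sum_comm]
    have h2 : ∀ r : I → I → Bool,
        (∑ c : I → I → Bool, if r ∈ Fintype.piFinset (t c) then (1 : ℝ) else 0)
        = if (∀ x ∈ S, ∃ u ∈ U, r x u ≠ xor (r u x) (d x u)) then
            ((2 : ℝ) ^ Fintype.card I) ^ S.card else 0 := by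
      intro r
      have h3 : ∀ c : I → I → Bool, r ∈ Fintype.piFinset (t c) ↔
          ((∀ x ∈ S, ∃ u ∈ U, r x u ≠ xor (r u x) (d x u)) ∧
            c ∈ Fintype.piFinset (fun x => if x ∈ S then univ else {r x})) := by
        intro c
        simp only [Fintype.mem_piFinset, ht]
        constructor
        · intro h
          have hc : ∀ x, x ∉ S → r x = c x := by
            intro x hx
            have := h x
            simpa [hx] using this
          refine ⟨fun x hx => ?_, fun x => ?_⟩
          · have := h x
            simp only [hx, if_true, mem_filter, mem_univ, true_and] at this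
            obtain ⟨u, hu, hne⟩ := this
            refine ⟨u, hu, ?_⟩
            rw [hc u (hUS u hu)]
            exact hne
          · split_ifs with hx
            · simp
            · simp [hc x hx]
        · rintro ⟨h, hc⟩ x
          have hc' : ∀ x, x ∉ S → c x = r x := by
            intro x hx
            have := hc x
            simpa [hx] using this
          split_ifs with hx
          · simp only [mem_filter, mem_univ, true_and]
            obtain ⟨u, hu, hne⟩ := h x hx
            refine ⟨u, hu, ?_⟩
            rw [hc' u (hUS u hu)]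
            exact hne
          · simp [hc' x hx]
      by_cases hb : (∀ x ∈ S, ∃ u ∈ U, r x u ≠ xor (r u x) (d x u))
      · rw [if_pos hb]
        have h4 : (∑ c : I → I → Bool, if r ∈ Fintype.piFinset (t c) then (1 : ℝ) else 0)
            = ∑ c : I → I → Bool,
              if c ∈ Fintype.piFinset (fun x => if x ∈ S then univ else {r x})
                then (1 : ℝ) else 0 := by
          refine Finset.sum_congr rfl fun c _ => ?_
          have := h3 c
          by_cases hc : c ∈ Fintype.piFinset (fun x => if x ∈ S then univ else {r x})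
          · rw [if_pos hc, if_pos (this.2 ⟨hb, hc⟩)]
          · rw [if_neg hc, if_neg (fun h => hc (this.1 h).2)]
        rw [h4]
        have h5 : (∑ c : I → I → Bool,
              if c ∈ Fintype.piFinset (fun x => if x ∈ S then univ else {r x})
                then (1 : ℝ) else 0)
            = ((Fintype.piFinset (fun x => if x ∈ S then (univ : Finset (I → Bool))
                else {r x})).card : ℝ) := by
          rw [Finset.sum_ite_mem, Finset.univ_inter, Finset.sum_const, nsmul_eq_mul, mul_one]
        rw [h5, Fintype.card_piFinset, Nat.cast_prod, ← prod_ite_mem_one]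
        refine Finset.prod_congr rfl fun x _ => ?_
        split_ifs with hx
        · simp
        · simp
      · rw [if_neg hb]
        refine Finset.sum_eq_zero fun c _ => ?_
        rw [if_neg (fun h => hb ((h3 c).1 h).1)]
    rw [Finset.sum_congr rfl (fun r _ => h2 r), ← Finset.sum_filter, Finset.sum_const,
      nsmul_eq_mul]
  rw [hA, mul_pow] at hB
  have hpos : (0 : ℝ) < (2 ^ Fintype.card I) ^ S.card := by positivity
  have hne := hpos.ne'
  have h6 : ((univ.filter (fun r : I → I → Bool =>
        ∀ x ∈ S, ∃ u ∈ U, r x u ≠ xor (r u x) (d x u))).card : ℝ)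
        * (2 ^ Fintype.card I) ^ S.card
      = ((2 ^ Fintype.card I) ^ Fintype.card I * (1 - (1 / 2) ^ U.card) ^ S.card)
        * (2 ^ Fintype.card I) ^ S.card := by
    rw [← hB]
    ring
  exact mul_right_cancel₀ hne h6

end counting

theorem exists_tour (Q m p : ℕ)
    (hnum : Q * (Q * m + 1) ^ p * (2 ^ p - 1) ^ (m - p) < (2 ^ p) ^ (m - p)) :
    ∃ b : Fin Q × Fin m → Fin Q × Fin m → Prop,
      (∀ i j, i ≠ j → (b i j ↔ ¬ b j i)) ∧
      ∀ U : Finset (Fin Q × Fin m), U.card ≤ p → ∀ q : Fin Q, ∃ i : Fin m, (q, i) ∉ U ∧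
        ∀ u ∈ U, b (q, i) u := by
  classical
  set d : Fin Q × Fin m → Fin Q × Fin m → Bool := fun x u =>
    decide (finProdFinEquiv x < finProdFinEquiv u) with hd
  set S : Fin Q → Finset (Fin Q × Fin m) → Finset (Fin Q × Fin m) := fun q U =>
    (univ.image (fun i : Fin m => (q, i))) \ U with hS
  set bad : Fin Q → Finset (Fin Q × Fin m) →
      Finset (Fin Q × Fin m → Fin Q × Fin m → Bool) := fun q U =>
    univ.filter (fun r => ∀ x ∈ S q U, ∃ u ∈ U, r x u ≠ xor (r u x) (d x u)) with hbad
  set T : ℝ := (2 ^ Fintype.card (Fin Q × Fin m)) ^ Fintype.card (Fin Q × Fin m) with hT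
  have hTpos : 0 < T := by positivity
  have hcardbad : ∀ q U, U.card ≤ p → ((bad q U).card : ℝ) ≤ T * (1 - (1 / 2) ^ p) ^ (m - p) := by
    intro q U hU
    have h1 := card_bad U (S q U) (fun u hu => by simp [hS, hu]) d
    simp only [hbad]
    rw [h1]
    refine mul_le_mul_of_nonneg_left ?_ hTpos.le
    have h2 : (1 / 2 : ℝ) ^ p ≤ (1 / 2) ^ U.card :=
      pow_le_pow_of_le_one (by norm_num) (by norm_num) hU
    have h3 : (1 / 2 : ℝ) ^ U.card ≤ 1 := pow_le_one₀ (by norm_num) (by norm_num)
    have h3' : (1 / 2 : ℝ) ^ p ≤ 1 := pow_le_one₀ (by norm_num) (by norm_num)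
    have h3'' : (0 : ℝ) < (1 / 2 : ℝ) ^ p := by positivity
    have h4 : (1 - (1 / 2 : ℝ) ^ U.card) ^ (S q U).card ≤ (1 - (1 / 2) ^ p) ^ (S q U).card :=
      pow_le_pow_left₀ (by linarith) (by linarith) _
    refine h4.trans ?_
    refine pow_le_pow_of_le_one (by linarith) (by linarith) ?_
    have h5 : (univ.image (fun i : Fin m => (q, i))).card = m := by
      rw [Finset.card_image_of_injective _ (fun a b h => (Prod.mk.inj h).2)]
      simp
    have h6 := Finset.le_card_sdiff U (univ.image (fun i : Fin m => (q, i)))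
    rw [h5] at h6
    simp only [hS]
    omega
  -- the family of all sets with at most `p` elements
  set Uf : (Fin p → Option (Fin Q × Fin m)) → Finset (Fin Q × Fin m) := fun f =>
    Finset.eraseNone (univ.image f) with hUf
  have hUfcard : ∀ f, (Uf f).card ≤ p := by
    intro f
    simp only [hUf]
    calc (Finset.eraseNone (univ.image f)).card ≤ (univ.image f).card := by
          rw [Finset.card_eraseNone_eq_card_erase]
          exact Finset.card_erase_le
      _ ≤ (univ : Finset (Fin p)).card := Finset.card_image_le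
      _ = p := by simp
  have hUfsurj : ∀ U : Finset (Fin Q × Fin m), U.card ≤ p → ∃ f, Uf f = U := by
    intro U hU
    refine ⟨fun k => if h : (k : ℕ) < U.card then
      some (U.equivFin.symm ⟨k, h⟩ : Fin Q × Fin m) else none, ?_⟩
    ext x
    simp only [hUf, Finset.mem_eraseNone, Finset.mem_image, Finset.mem_univ, true_and]
    constructor
    · rintro ⟨k, hk⟩
      split_ifs at hk with h
      · simp only [Option.some.injEq] at hk
        rw [← hk]
        exact (U.equivFin.symm ⟨k, h⟩).2
    · intro hx
      refine ⟨⟨(U.equivFin ⟨x, hx⟩ : ℕ), lt_of_lt_of_le (U.equivFin ⟨x, hx⟩).2 hU⟩, ?_⟩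
      rw [dif_pos (U.equivFin ⟨x, hx⟩).2]
      simp
  -- union bound
  have hunion : (((univ : Finset (Fin Q × (Fin p → Option (Fin Q × Fin m)))).biUnion
      (fun z => bad z.1 (Uf z.2))).card : ℝ) < T := by
    have h1 : (((univ : Finset (Fin Q × (Fin p → Option (Fin Q × Fin m)))).biUnion
        (fun z => bad z.1 (Uf z.2))).card : ℝ)
        ≤ ∑ z : Fin Q × (Fin p → Option (Fin Q × Fin m)), ((bad z.1 (Uf z.2)).card : ℝ) := by
      exact_mod_cast Finset.card_biUnion_le
    have h2 : (∑ z : Fin Q × (Fin p → Option (Fin Q × Fin m)), ((bad z.1 (Uf z.2)).card : ℝ))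
        ≤ ∑ z : Fin Q × (Fin p → Option (Fin Q × Fin m)),
            T * (1 - (1 / 2) ^ p) ^ (m - p) :=
      Finset.sum_le_sum fun z _ => hcardbad _ _ (hUfcard _)
    have h3 : (∑ z : Fin Q × (Fin p → Option (Fin Q × Fin m)),
            T * (1 - (1 / 2) ^ p) ^ (m - p))
        = (Q * (Q * m + 1) ^ p : ℝ) * (T * (1 - (1 / 2) ^ p) ^ (m - p)) := by
      rw [Finset.sum_const, nsmul_eq_mul]
      congr 1
      simp
    have h4 : (Q * (Q * m + 1) ^ p : ℝ) * (1 - (1 / 2) ^ p) ^ (m - p) < 1 := by
      have h5 : ((Q * (Q * m + 1) ^ p * (2 ^ p - 1) ^ (m - p) : ℕ) : ℝ)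
          < (((2 ^ p) ^ (m - p) : ℕ) : ℝ) := by exact_mod_cast hnum
      have h6 : ((2 ^ p - 1 : ℕ) : ℝ) = 2 ^ p - 1 := by
        rw [Nat.cast_sub Nat.one_le_two_pow]
        simp
      push_cast [h6] at h5
      have h7 : (0 : ℝ) < (2 ^ p) ^ (m - p) := by positivity
      have h8 : (1 - (1 / 2 : ℝ) ^ p) = (2 ^ p - 1) / 2 ^ p := by
        rw [one_div, inv_pow, eq_div_iff (by positivity), sub_mul,
          inv_mul_cancel₀ (by positivity), one_mul]
      rw [h8, div_pow, mul_div_assoc', div_lt_one h7]
      exact h5
    calc _ ≤ _ := h1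
      _ ≤ _ := h2
      _ = _ := h3
      _ = ((Q * (Q * m + 1) ^ p : ℝ) * (1 - (1 / 2) ^ p) ^ (m - p)) * T := by ring
      _ < 1 * T := mul_lt_mul_of_pos_right h4 hTpos
      _ = T := one_mul T
  have hex : ∃ r : Fin Q × Fin m → Fin Q × Fin m → Bool,
      r ∉ (univ : Finset (Fin Q × (Fin p → Option (Fin Q × Fin m)))).biUnion
        (fun z => bad z.1 (Uf z.2)) := by
    by_contra hcon
    push_neg at hcon
    have h1 : (univ : Finset (Fin Q × (Fin p → Option (Fin Q × Fin m)))).biUnion
        (fun z => bad z.1 (Uf z.2)) = univ := by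
      ext r
      simp only [Finset.mem_univ, iff_true]
      exact hcon r
    rw [h1] at hunion
    apply lt_irrefl T
    refine lt_of_eq_of_lt ?_ hunion
    simp [hT]
  obtain ⟨r, hr⟩ := hex
  refine ⟨fun i j => r i j = xor (r j i) (d i j), ?_, ?_⟩
  · intro i j hij
    have hne : finProdFinEquiv i ≠ finProdFinEquiv j := fun h => hij (finProdFinEquiv.injective h)
    rcases lt_or_gt_of_ne hne with h | h
    · have h1 : d i j = true := by simp [hd, h]
      have h2 : d j i = false := by simp [hd, h.le]
      show (r i j = xor (r j i) (d i j)) ↔ ¬ (r j i = xor (r i j) (d j i))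
      rw [h1, h2]
      cases r i j <;> cases r j i <;> simp
    · have h1 : d i j = false := by simp [hd, h.le]
      have h2 : d j i = true := by simp [hd, h]
      show (r i j = xor (r j i) (d i j)) ↔ ¬ (r j i = xor (r i j) (d j i))
      rw [h1, h2]
      cases r i j <;> cases r j i <;> simp
  · intro U hU q
    obtain ⟨f, hf⟩ := hUfsurj U hU
    have h1 : r ∉ bad q U := by
      intro h
      apply hr
      rw [Finset.mem_biUnion]
      exact ⟨(q, f), Finset.mem_univ _, by rw [hf]; exact h⟩
    simp only [hbad, Finset.mem_filter, Finset.mem_univ, true_and, not_forall] at h1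
    obtain ⟨x, hx, hx2⟩ := h1
    simp only [hS, Finset.mem_sdiff, Finset.mem_image, Finset.mem_univ, true_and] at hx
    obtain ⟨⟨i, rfl⟩, hxU⟩ := hx
    refine ⟨i, hxU, fun u hu => ?_⟩
    by_contra hne
    exact hx2 ⟨u, hu, hne⟩

end Pool.Agent.Helper45.DR2
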