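import Pool.Agent.Helper45.DR2.Core
import Pool.Agent.Helper45.DR2.Count
import Pool.Agent.Helper45.DR2.Greedy
import Pool.Agent.Helper45.DR2.Tour

set_option autoImplicit false

/-!
# DR2: the choice of the labels, cluster by cluster
-/

namespace Pool.Agent.Helper45.DR2

open Pool.Agent.Helper45.DR

lemma exists_places {W : Type*} (G : SimpleGraph W) (D : ℕ)
    (hD : ∀ x, (G.neighborSet x).Finite ∧ (G.neighborSet x).ncard ≤ D) (h : ℕ) :
    ∀ x : W, ∃ P : Finset W, P.card ≤ (D + 1) ^ h ∧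
      ∀ y, (∃ p : G.Walk x y, p.length ≤ h) → y ∈ P := by
  classical
  obtain ⟨stp, hstp⟩ := exists_stp G D hD
  induction h with
  | zero =>
    intro x
    refine ⟨{x}, by simp, ?_⟩
    rintro y ⟨p, hp⟩
    rw [Finset.mem_singleton]
    exact (SimpleGraph.Walk.eq_of_length_eq_zero (by omega : p.length = 0)).symm
  | succ h ih =>
    choose P hP hP' using ih
    intro x
    refine ⟨Finset.univ.biUnion fun c => P (stp x c), ?_, ?_⟩
    · refine (Finset.card_biUnion_le_card_mul _ _ _ fun c _ => hP _).trans ?_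
      rw [Finset.card_univ, Fintype.card_fin, pow_succ, mul_comm]
    · rintro y ⟨p, hp⟩
      rw [Finset.mem_biUnion]
      cases p with
      | nil =>
        obtain ⟨c, hc⟩ := hstp x x (Or.inl rfl)
        refine ⟨c, Finset.mem_univ _, hP' _ _ ?_⟩
        rw [hc]
        exact ⟨SimpleGraph.Walk.nil, by simp⟩
      | @cons _ v _ hv p =>
        obtain ⟨c, hc⟩ := hstp x v (Or.inr hv)
        refine ⟨c, Finset.mem_univ _, hP' _ _ ?_⟩
        rw [hc]
        rw [SimpleGraph.Walk.length_cons] at hp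
        exact ⟨p, by omega⟩

/-- the label of `σ` is seen from `y` within distance less than `T` -/
def Sees {W : Type*} (G : SimpleGraph W) {m : ℕ} (T : ℕ) (y : W) (σ : Equiv.Perm (Fin m)) : Prop :=
  ∃ z, TagAt G σ z ∧ ∃ p : G.Walk y z, p.length < T

lemma sees_local {W W' : Type*} (G : SimpleGraph W) (G' : SimpleGraph W') (φ : W → W') (x : W)
    (ρ h T m : ℕ) (hρ : h + T + 2 * m ≤ ρ) (hinj : Set.InjOn φ {u | G.edist x u ≤ ρ})
    (hφ : ∀ u v, G.edist x u ≤ ρ → G.edist x v ≤ ρ → G.Adj u v → G'.Adj (φ u) (φ v))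
    (σ : Equiv.Perm (Fin m)) (y : W) (q : G.Walk x y) (hq : q.length ≤ h)
    (hs : Sees G T y σ) :
    (∃ q' : G'.Walk (φ x) (φ y), q'.length ≤ h) ∧ Sees G' T (φ y) σ := by
  classical
  have hwalk : ∀ u : W, (∃ q : G.Walk x u, q.length ≤ ρ) → u ∈ {u | G.edist x u ≤ ρ} := by
    rintro u ⟨q, hq⟩
    exact (SimpleGraph.edist_le q).trans (by exact_mod_cast hq)
  have hhom : ∀ u ∈ {u | G.edist x u ≤ ρ}, ∀ v ∈ {u | G.edist x u ≤ ρ}, G.Adj u v →
      G'.Adj (φ u) (φ v) := fun u hu v hv huv => hφ u v hu hv huv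
  obtain ⟨z, hz, p, hp⟩ := hs
  constructor
  · obtain ⟨q', hq'⟩ := walk_local G G' φ _ hhom q (by
      intro u hu
      refine hwalk u ⟨q.takeUntil u hu, ?_⟩
      have := q.length_takeUntil_le_length hu
      omega)
    exact ⟨q', by omega⟩
  · refine ⟨φ z, (tag_local G G' φ x ρ (h + T) m hρ hinj hφ σ z hz (q.append p) ?_).1, ?_⟩
    · rw [SimpleGraph.Walk.length_append]
      omega
    · obtain ⟨p', hp'⟩ := walk_local G G' φ _ hhom p (by
        intro u hu
        refine hwalk u ⟨q.append (p.takeUntil u hu), ?_⟩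
        have := p.length_takeUntil_le_length hu
        rw [SimpleGraph.Walk.length_append]
        omega)
      exact ⟨p', by omega⟩

/-- the labels for one cluster -/
theorem cluster {W' : Type*} (G' : SimpleGraph W') (D : ℕ)
    (hD : ∀ x, (G'.neighborSet x).Finite ∧ (G'.neighborSet x).ncard ≤ D) (m h : ℕ)
    (π : Fin (2 ^ h) → Equiv.Perm (Fin m)) (hπ : Function.Injective π) (I : Type*) [Fintype I]
    (T k w : ℕ) (R : Finset W')
    (hnum : R.card * ((Fintype.card I) ^ (k * w) * ((D + 1) ^ h) ^ k *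
      ((D + 1) ^ (T + 3 * m)) ^ (k * w)) < (2 ^ h) ^ (k * w)) :
    ∃ a : I → Fin (2 ^ h), ∀ x ∈ R, ¬ ∃ (e : Fin k × Fin w → I) (y : Fin k → W'),
      Function.Injective e ∧ (∀ t, ∃ p : G'.Walk x (y t), p.length ≤ h) ∧
        ∀ t u, Sees G' T (y t) (π (a (e (t, u)))) := by
  classical
  choose Pl hPl hPl' using exists_places G' D hD h
  let S : W' → Finset (Fin (2 ^ h)) := fun y => Finset.univ.filter fun a => Sees G' T y (π a)
  have hS : ∀ y, (S y).card ≤ (D + 1) ^ (T + 3 * m) := fun y =>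
    near_card G' D hD π hπ T y (S y) fun a ha => (Finset.mem_filter.1 ha).2
  have hne : Nonempty (Fin (2 ^ h)) := ⟨⟨0, by positivity⟩⟩
  obtain ⟨a, ha⟩ := exists_labels (I := I) S _ hS R Pl _ hPl k w
    (by rw [Fintype.card_fin]; exact hnum) hne
  refine ⟨a, fun x hx => ?_⟩
  rintro ⟨e, y, he, hy, hs⟩
  exact ha x hx ⟨e, y, he, fun t => hPl' _ _ (hy t),
    fun t u => Finset.mem_filter.2 ⟨Finset.mem_univ _, hs t u⟩⟩

lemma walk_pth {W : Type*} (G : SimpleGraph W) (m h : ℕ) (π : Fin (2 ^ h) → Equiv.Perm (Fin m))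
    (f : V m h → W) (hadj : ∀ u v, (HG m h π).Adj u v → G.Adj (f u) (f v)) (a : Fin (2 ^ h)) :
    ∀ j ≤ h, ∃ p : G.Walk (f (pth m h a 0)) (f (pth m h a j)), p.length = j := by
  intro j
  induction j with
  | zero => intro _; exact ⟨SimpleGraph.Walk.nil, rfl⟩
  | succ j ih =>
    intro hj
    obtain ⟨p, hp⟩ := ih (by omega)
    refine ⟨p.concat (hadj _ _ (pth_adj m h π a j (by omega))), ?_⟩
    rw [SimpleGraph.Walk.length_concat, hp]

section

variable {W : Type*} (G : SimpleGraph W) {m h : ℕ} (π : Fin (2 ^ h) → Equiv.Perm (Fin m))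
  {I : Type*} [Fintype I] (b : I → I → Prop) (C T : ℕ)

open Classical in
/-- the indices whose labels are seen from `z` -/
noncomputable def LS (a : I → Fin (2 ^ h)) (z : W) : Finset I :=
  Finset.univ.filter fun i => Sees G T z (π (a i))

open Classical in
/-- the index `i` is enabled at `z` -/
def En (a : I → Fin (2 ^ h)) (z : W) (i : I) : Prop :=
  TagAt G (π (a i)) z ∧ ((LS G π T a z).filter fun j => j ≠ i ∧ b j i).card ≤ C

end

/-- no copy survives if every cluster of roots is small -/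
theorem select {W W' ι : Type*} (G : SimpleGraph W) (G' : SimpleGraph W') (D : ℕ)
    (hD : ∀ x, (G'.neighborSet x).Finite ∧ (G'.neighborSet x).ncard ≤ D) (m h : ℕ) (hm : 0 < m)
    (π : Fin (2 ^ h) → Equiv.Perm (Fin m)) (hπ : Function.Injective π)
    (C g m₁ p k T N : ℕ) (hT : 0 < T) (hk : k * (C + 2) ≤ p + (C + 2))
    (htour : (2 * C + 2) * ((2 * C + 2) * m₁ + 1) ^ p * (2 ^ p - 1) ^ (m₁ - p) <
      (2 ^ p) ^ (m₁ - p))
    (hnum : N * ((g * ((2 * C + 2) * m₁)) ^ (g * k * (C + 2)) * ((D + 1) ^ h) ^ (g * k) *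
      ((D + 1) ^ (2 * T + 3 * m)) ^ (g * k * (C + 2))) < (2 ^ h) ^ (g * k * (C + 2)))
    (ρ : ℕ) (hρ : h + 2 * T + 2 * m ≤ ρ) (J : ℕ) (col : W → Fin J) (part : W → ι)
    (hsep : ∀ x y, col x = col y → (∃ q : G.Walk x y, q.length ≤ h + T) → part x = part y)
    (τ : W → W') (hloc : ∀ x, ∃ φ : W → W', φ x = τ x ∧ Set.InjOn φ {u | G.edist x u ≤ ρ} ∧
      ∀ u v, G.edist x u ≤ ρ → G.edist x v ≤ ρ → G.Adj u v → G'.Adj (φ u) (φ v))
    (hR : ∀ l P, ∃ R : Finset W', R.card ≤ N ∧ ∀ x, col x = l → part x = P → τ x ∈ R) :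
    ∃ Y : Fin J × Fin g × Fin (2 * C + 2) → Set W, ∀ f : V m h → W, Function.Injective f →
      (∀ u v, (HG m h π).Adj u v → G.Adj (f u) (f v)) →
      ∃ i a, f (pth m h a 0) ∈ Y i ∧ td G (Y i) T (f (pth m h a h)) = T := by
  classical
  obtain ⟨b, hb, hbU⟩ := exists_tour (2 * C + 2) m₁ p htour
  have hcl : ∀ (l : Fin J) (P : ι), ∃ (R : Finset W')
      (a : Fin g × Fin (2 * C + 2) × Fin m₁ → Fin (2 ^ h)),
      (∀ x, col x = l → part x = P → τ x ∈ R) ∧
      ∀ x ∈ R, ¬ ∃ (e : Fin (g * k) × Fin (C + 2) → Fin g × Fin (2 * C + 2) × Fin m₁)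
        (y : Fin (g * k) → W'),
        Function.Injective e ∧ (∀ t, ∃ p : G'.Walk x (y t), p.length ≤ h) ∧
          ∀ t u, Sees G' (2 * T) (y t) (π (a (e (t, u)))) := by
    intro l P
    obtain ⟨R, hRN, hR⟩ := hR l P
    obtain ⟨a, ha⟩ := cluster G' D hD m h π hπ (Fin g × Fin (2 * C + 2) × Fin m₁) (2 * T) (g * k)
      (C + 2) R (by
        rw [Fintype.card_prod, Fintype.card_prod, Fintype.card_fin, Fintype.card_fin,
          Fintype.card_fin]
        exact lt_of_le_of_lt (Nat.mul_le_mul_right _ hRN) hnum)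
    exact ⟨R, a, hR, ha⟩
  choose R a hRτ ha using hcl
  let Y' : Fin J → Fin g → Fin (2 * C + 2) → Set W := fun l γ q => {z | ∃ x, col x = l ∧
    (∃ p : G.Walk x z, p.length ≤ h) ∧
      ∃ i : Fin m₁, En G π b C (2 * T) (fun j => a l (part x) (γ, j)) z (q, i)}
  refine ⟨fun i => Y' i.1 i.2.1 i.2.2, ?_⟩
  intro f hf hadj
  have h2h : 0 < 2 ^ h := by positivity
  obtain ⟨x₀, hx₀⟩ : ∃ x₀, ∀ c, f (pth m h c h) = x₀ :=
    ⟨f (pth m h ⟨0, h2h⟩ h), fun c => by rw [pth_top m h c ⟨0, h2h⟩]⟩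
  have hwalk : ∀ c, ∃ p : G.Walk x₀ (f (pth m h c 0)), p.length = h := by
    intro c
    have hw := walk_pth G m h π f hadj c h le_rfl
    rw [hx₀] at hw
    obtain ⟨p, hp⟩ := hw
    exact ⟨p.reverse, by rw [SimpleGraph.Walk.length_reverse, hp]⟩
  set l := col x₀ with hl
  set P := part x₀ with hP
  -- the root is far from one of the sets of every group
  have hq : ∀ γ, ∃ q, td G (Y' l γ q) T x₀ = T := by
    intro γ
    by_contra hcon
    push Not at hcon
    have h1 : ∀ q, ∃ (z : W) (i : Fin m₁), En G π b C (2 * T) (fun j => a l P (γ, j)) z (q, i) ∧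
        ∃ p : G.Walk x₀ z, p.length < T := by
      intro q
      have h2 : td G (Y' l γ q) T x₀ < T := lt_of_le_of_ne (td_le _ _ _ _) (hcon q)
      obtain ⟨z, ⟨x, hx, ⟨p', hp'⟩, i, hi⟩, p, hp⟩ := td_lt G (Y' l γ q) T x₀ h2
      have h3 : part x = part x₀ := by
        refine hsep x x₀ hx ⟨p'.append p.reverse, ?_⟩
        rw [SimpleGraph.Walk.length_append, SimpleGraph.Walk.length_reverse]
        omega
      rw [h3] at hi
      exact ⟨z, i, hi, p, hp⟩
    choose z i hEn hz using h1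
    have hinj : Function.Injective fun q => (q, i q) := fun q q' hqq => (Prod.ext_iff.1 hqq).1
    have h2 := capacity b hb C (Finset.univ.image fun q => (q, i q)) (by
      intro j hj
      obtain ⟨q, -, rfl⟩ := Finset.mem_image.1 hj
      refine (Finset.card_le_card ?_).trans (hEn q).2
      intro j' hj'
      simp only [Finset.mem_filter] at hj' ⊢
      refine ⟨?_, hj'.2⟩
      obtain ⟨q', -, rfl⟩ := Finset.mem_image.1 hj'.1
      refine Finset.mem_filter.2 ⟨Finset.mem_univ _, z q', (hEn q').1, ?_⟩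
      obtain ⟨p, hp⟩ := hz q
      obtain ⟨p', hp'⟩ := hz q'
      refine ⟨p.reverse.append p', ?_⟩
      rw [SimpleGraph.Walk.length_append, SimpleGraph.Walk.length_reverse]
      omega)
    rw [Finset.card_image_of_injective _ hinj, Finset.card_univ, Fintype.card_fin] at h2
    omega
  choose q hq using hq
  -- an enabled leaf of some group
  obtain ⟨γ, i, hi⟩ : ∃ (γ : Fin g) (i : Fin m₁), En G π b C (2 * T) (fun j => a l P (γ, j))
      (f (pth m h (a l P (γ, (q γ, i))) 0)) (q γ, i) := by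
    by_contra hcon
    push Not at hcon
    let z : Fin g → Fin (2 * C + 2) × Fin m₁ → W := fun γ i => f (pth m h (a l P (γ, i)) 0)
    have htag : ∀ γ i, TagAt G (π (a l P (γ, i))) (z γ i) := fun γ i =>
      tagAt_leaf G m h hm π f hf hadj (a l P (γ, i))
    have hg : ∀ γ, ∃ (e : Fin k × Fin (C + 2) → Fin (2 * C + 2) × Fin m₁) (y : Fin k → W),
        Function.Injective e ∧ (∀ t, ∃ i ∈ (Finset.univ.filter fun i => i.1 = q γ), y t = z γ i) ∧
        ∀ t u, e (t, u) ∈ LS G π (2 * T) (fun j => a l P (γ, j)) (y t) := by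
      intro γ
      refine greedy b hb (Finset.univ.filter fun i => i.1 = q γ) p (by
          intro U hU
          obtain ⟨i, hi, hi'⟩ := hbU U hU (q γ)
          exact ⟨(q γ, i), Finset.mem_filter.2 ⟨Finset.mem_univ _, rfl⟩, hi, hi'⟩) C
        (LS G π (2 * T) (fun j => a l P (γ, j))) (z γ) (by
          rintro ⟨q', i⟩ hi
          obtain rfl : q' = q γ := (Finset.mem_filter.1 hi).2
          refine ⟨Finset.mem_filter.2 ⟨Finset.mem_univ _, z γ (q γ, i), htag _ _,
            SimpleGraph.Walk.nil, by rw [SimpleGraph.Walk.length_nil]; omega⟩, ?_⟩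
          have h1 := hcon γ i
          by_contra h2
          exact h1 ⟨htag _ _, Nat.lt_succ_iff.1 (not_le.1 h2)⟩) k hk
    choose e y he hy hey using hg
    obtain ⟨φ, hφx, hφi, hφ⟩ := hloc x₀
    have hyw : ∀ γ t, ∃ p : G.Walk x₀ (y γ t), p.length ≤ h := by
      intro γ t
      obtain ⟨i, -, hi⟩ := hy γ t
      obtain ⟨p, hp⟩ := hwalk (a l P (γ, i))
      rw [hi]
      exact ⟨p, hp.le⟩
    have htr : ∀ γ t u, (∃ q' : G'.Walk (φ x₀) (φ (y γ t)), q'.length ≤ h) ∧
        Sees G' (2 * T) (φ (y γ t)) (π (a l P (γ, e γ (t, u)))) := by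
      intro γ t u
      obtain ⟨p, hp⟩ := hyw γ t
      exact sees_local G G' φ x₀ ρ h (2 * T) m hρ hφi hφ _ (y γ t) p hp
        (Finset.mem_filter.1 (hey γ t u)).2
    refine ha l P (τ x₀) (hRτ l P x₀ rfl rfl) ⟨fun s => ((finProdFinEquiv.symm s.1).1,
      e (finProdFinEquiv.symm s.1).1 ((finProdFinEquiv.symm s.1).2, s.2)),
      fun t => φ (y (finProdFinEquiv.symm t).1 (finProdFinEquiv.symm t).2), ?_, fun t => ?_,
      fun t u => (htr _ _ u).2⟩
    · rintro ⟨t, u⟩ ⟨t', u'⟩ htt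
      simp only [Prod.mk.injEq] at htt
      obtain ⟨h1, h2⟩ := htt
      rw [← h1] at h2
      have h3 := he _ h2
      rw [Prod.mk.injEq] at h3
      have h4 : finProdFinEquiv.symm t = finProdFinEquiv.symm t' := Prod.ext h1 h3.1
      rw [Prod.mk.injEq]
      exact ⟨finProdFinEquiv.symm.injective h4, h3.2⟩
    · have h3 := (htr (finProdFinEquiv.symm t).1 (finProdFinEquiv.symm t).2 ⟨0, by omega⟩).1
      rw [hφx] at h3
      exact h3
  refine ⟨(l, γ, q γ), a l P (γ, (q γ, i)), ?_, ?_⟩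
  · refine ⟨x₀, rfl, ?_, i, hi⟩
    obtain ⟨p, hp⟩ := hwalk (a l P (γ, (q γ, i)))
    exact ⟨p, hp.le⟩
  · rw [hx₀]
    exact hq γ

end Pool.Agent.Helper45.DR2
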